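import Mathlib
import Pool.Agent.Helper35.HSF.StB

/-!
Project HSF, module BTJ of helper35: jets of the chord curvature along two graphs
-/

set_option autoImplicit false

namespace Helper19.HSF

open Helper35.HSF Helper35.MS Helper35.PI Helper35.PI2 Helper32.CL
open scoped ContDiff Manifold Topology ENNReal BigOperators
open MeasureTheory Set Filter

private lemma btj_two : (2 : WithTop ℕ∞) ≤ ((⊤ : ℕ∞) : WithTop ℕ∞) := WithTop.coe_le_coe.2 le_top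

private lemma btj_lin {n N : ℕ} (x₀ : EE N) (L : EE n →ₗᵢ[ℝ] EE N) (z : EE n × ℝ) :
    HasFDerivAt (fun z : EE n × ℝ => x₀ + L z.1)
      (L.toContinuousLinearMap.comp (ContinuousLinearMap.fst ℝ (EE n) ℝ)) z := by
  have h := (L.toContinuousLinearMap.comp (ContinuousLinearMap.fst ℝ (EE n) ℝ)).hasFDerivAt
    (x := z)
  exact h.const_add x₀

private lemma btj_lin_jg {n N : ℕ} (x₀ : EE N) (L : EE n →ₗᵢ[ℝ] EE N) (z : EE n × ℝ)
    (k : Fin n) : jg (fun z : EE n × ℝ => x₀ + L z.1) z k = L (ee k) := by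
  unfold jg
  rw [(btj_lin x₀ L z).fderiv]
  rfl

private lemma btj_lin_jt {n N : ℕ} (x₀ : EE N) (L : EE n →ₗᵢ[ℝ] EE N) (z : EE n × ℝ) :
    jt (fun z : EE n × ℝ => x₀ + L z.1) z = 0 := by
  unfold jt
  rw [(btj_lin x₀ L z).fderiv]
  exact L.map_zero

private lemma btj_lin_jh (hJA : StJA) {n N : ℕ} (x₀ : EE N) (L : EE n →ₗᵢ[ℝ] EE N)
    (z : EE n × ℝ) : jh (fun z : EE n × ℝ => x₀ + L z.1) z = 0 := by
  unfold jh
  rw [btj_lin_jt]
  have h : ∀ k : Fin n, jgg (fun z : EE n × ℝ => x₀ + L z.1) z k k = 0 := by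
    intro k
    unfold jgg
    have e : (fun z' => jg (fun z : EE n × ℝ => x₀ + L z.1) z' k)
        = fun _ : EE n × ℝ => L (ee k) := by
      funext z'
      exact btj_lin_jg x₀ L z' k
    rw [e]
    exact ((hJA n (EE N) z).2.1 (L (ee k))).1 k
  simp only [h, Finset.sum_const_zero, sub_zero]

private lemma btj_lin_cd {n N : ℕ} (x₀ : EE N) (L : EE n →ₗᵢ[ℝ] EE N) (z : EE n × ℝ) :
    ContDiffAt ℝ ∞ (fun z : EE n × ℝ => x₀ + L z.1) z := by
  have h : ContDiff ℝ ∞ (L.toContinuousLinearMap.comp (ContinuousLinearMap.fst ℝ (EE n) ℝ)) :=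
    ContinuousLinearMap.contDiff _
  exact (contDiff_const.add h).contDiffAt

/-- the heat of the graph function vanishes at the centre -/
private lemma btj_u (hG2 : StG2) {n N : ℕ} (x₀ : EE N) (L : EE n →ₗᵢ[ℝ] EE N)
    (u : EE n × ℝ → EE N) (t₀ : ℝ) (h : GraphSol x₀ L u t₀) : jh u (0, t₀) = 0 := by
  have h1 := h.pde.self_of_nhds
  have h2 := (hG2 n N x₀ L u t₀ h).self_of_nhds.2.2.1
  have h3 : gram (grf x₀ L u ((0 : EE n), t₀).2) ((0 : EE n), t₀).1 = 1 := by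
    ext i j
    have h4 := h2 i j
    unfold Gf at h4
    rw [h4, h.du0 i, inner_zero_left, add_zero, Matrix.one_apply]
  rw [h3, inv_one] at h1
  unfold jh
  rw [h1, sub_eq_zero]
  refine Finset.sum_congr rfl fun i _ => ?_
  rw [Finset.sum_eq_single i]
  · rw [Matrix.one_apply_eq, one_smul]
  · intro j _ hj
    rw [Matrix.one_apply_ne (Ne.symm hj), zero_smul]
  · intro hi
    exact absurd (Finset.mem_univ i) hi

/-- jets of a graph at the centre -/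
private lemma btj_grf (hJA : StJA) (hG2 : StG2) {n N : ℕ} (x₀ : EE N)
    (L : EE n →ₗᵢ[ℝ] EE N) (u : EE n × ℝ → EE N) (t₀ : ℝ) (h : GraphSol x₀ L u t₀) :
    ContDiffAt ℝ ∞ (fun z : EE n × ℝ => grf x₀ L u z.2 z.1) (0, t₀) ∧
    grf x₀ L u t₀ 0 = x₀ ∧
    (∀ k, jg (fun z : EE n × ℝ => grf x₀ L u z.2 z.1) (0, t₀) k = L (ee k)) ∧
    jh (fun z : EE n × ℝ => grf x₀ L u z.2 z.1) (0, t₀) = 0 := by
  have e : (fun z : EE n × ℝ => grf x₀ L u z.2 z.1) = fun z => (x₀ + L z.1) + u z := by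
    funext z
    unfold grf
    rfl
  have c1 : ContDiffAt ℝ ∞ (fun z : EE n × ℝ => x₀ + L z.1) (0, t₀) := btj_lin_cd x₀ L _
  have c2 : ContDiffAt ℝ 2 (fun z : EE n × ℝ => x₀ + L z.1) (0, t₀) := c1.of_le btj_two
  have c3 : ContDiffAt ℝ 2 u (0, t₀) := h.smooth.of_le btj_two
  obtain ⟨a1, a2, -, -⟩ := (hJA n (EE N) (0, t₀)).2.2.1 (fun z : EE n × ℝ => x₀ + L z.1) u c2 c3
  rw [e]
  refine ⟨c1.add h.smooth, ?_, ?_, ?_⟩
  · unfold grf
    rw [h.u0, map_zero, add_zero, add_zero]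
  · intro k
    rw [a1 k, btj_lin_jg, h.du0 k, add_zero]
  · rw [a2, btj_lin_jh hJA, btj_u hG2 x₀ L u t₀ h, add_zero]

/-- BTJ: jets of the chord curvature along two graphs -/
theorem hBTJ (hJA : StJA) (hJB : StJB) (hJD : StJD) (hG2 : StG2) (hG3 : StG3) : StBTJ := by
  have _ := hG3
  intro n N x₀ y₀ L L' u u' t₀ hu hu' w hw hw0 hL' m ν₀ K a b cm m0 hν hmk hmh hwx β hβ
  obtain ⟨c1, v1, g1, h1⟩ := btj_grf hJA hG2 x₀ L u t₀ hu
  obtain ⟨c2, v2, g2, h2⟩ := btj_grf hJA hG2 y₀ L' u' t₀ hu'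
  set W : EE n × ℝ → EE N := fun z => grf y₀ L' u' z.2 z.1 - grf x₀ L u z.2 z.1 with hW
  have cW : ContDiffAt ℝ ∞ W (0, t₀) := c2.sub c1
  have cW2 : ContDiffAt ℝ 2 W (0, t₀) := cW.of_le btj_two
  have cm2 : ContDiffAt ℝ 2 m (0, t₀) := cm.of_le btj_two
  have W0 : W (0, t₀) = w := by
    rw [hW, hw]
    show grf y₀ L' u' t₀ 0 - grf x₀ L u t₀ 0 = y₀ - x₀
    rw [v1, v2]
  have d0 : ‖w‖ ^ 2 ≠ 0 := pow_ne_zero 2 (norm_ne_zero_iff.2 hw0)
  obtain ⟨-, -, s1, s2⟩ := (hJA n (EE N) (0, t₀)).2.2.1 _ _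
    (c2.of_le btj_two : ContDiffAt ℝ 2 _ _)
    (c1.of_le btj_two : ContDiffAt ℝ 2 _ _)
  have Wk : ∀ k, jg W (0, t₀) k = -(2 * inner ℝ w (L (ee k)) / ‖w‖ ^ 2) • w := by
    intro k
    rw [hW, s1 k, g1 k, g2 k, hL' (ee k)]
    rw [neg_smul]
    abel
  have Wh : jh W (0, t₀) = 0 := by
    rw [hW, s2, h1, h2, sub_zero]
  -- the denominator
  set ψ : EE n × ℝ → ℝ := fun z => inner ℝ (W z) (W z) with hψ
  set φ₀ : EE n × ℝ → ℝ := fun z => inner ℝ (W z) (m z) with hφ₀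
  set φ : EE n × ℝ → ℝ := fun z => (2 : ℝ) • φ₀ z with hφ
  have cψ : ContDiffAt ℝ 2 ψ (0, t₀) := cW2.inner ℝ cW2
  have cφ₀ : ContDiffAt ℝ 2 φ₀ (0, t₀) := cW2.inner ℝ cm2
  have cφ : ContDiffAt ℝ 2 φ (0, t₀) := cφ₀.const_smul (2 : ℝ)
  have ψ0 : ψ (0, t₀) = ‖w‖ ^ 2 := by
    show inner ℝ (W (0, t₀)) (W (0, t₀)) = ‖w‖ ^ 2
    rw [W0, real_inner_self_eq_norm_sq]
  have φ0 : φ (0, t₀) = 2 * inner ℝ w ν₀ := by
    show (2 : ℝ) • inner ℝ (W (0, t₀)) (m (0, t₀)) = 2 * inner ℝ w ν₀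
    rw [W0, m0, smul_eq_mul]
  have ψne : ψ (0, t₀) ≠ 0 := by rw [ψ0]; exact d0
  have hβ' : β = fun z => φ z / ψ z := by
    rw [hβ]
    funext z
    show _ = (2 : ℝ) • inner ℝ (W z) (m z) / inner ℝ (W z) (W z)
    rw [real_inner_self_eq_norm_sq, smul_eq_mul]
  have cβ : ContDiffAt ℝ 2 β (0, t₀) := by
    rw [hβ']
    exact cφ.div cψ ψne
  refine ⟨cβ, ?_⟩
  intro P p hP hp
  have hp' : ∀ k, inner ℝ w (L (ee k)) = p k := fun k => by rw [hp]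
  have hPe : P = 2 * inner ℝ w ν₀ / ‖w‖ ^ 2 := by
    rw [hP, hβ']
    show φ (0, t₀) / ψ (0, t₀) = _
    rw [φ0, ψ0]
  have hwν : (inner ℝ w ν₀ : ℝ) = P * ‖w‖ ^ 2 / 2 := by
    rw [hPe]
    field_simp
  have hwm : ∀ k, (inner ℝ w (jg m (0, t₀) k) : ℝ) = -∑ j, K k j * p j := by
    intro k
    rw [hmk k, inner_neg_right, inner_sum]
    refine congrArg Neg.neg (Finset.sum_congr rfl fun j _ => ?_)
    rw [real_inner_smul_right, hp' j]
  have ψk : ∀ k, jg ψ (0, t₀) k = -4 * p k := by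
    intro k
    rw [hψ, ((hJB n N (0, t₀)).2 W W cW2 cW2).1 k, Wk k, W0, hp' k, inner_smul_left,
      inner_smul_right, real_inner_self_eq_norm_sq]
    simp only [conj_trivial]
    field_simp
    ring
  have ψh : jh ψ (0, t₀) = -8 * (∑ k, p k ^ 2) / ‖w‖ ^ 2 := by
    rw [hψ, ((hJB n N (0, t₀)).2 W W cW2 cW2).2, Wh, inner_zero_left, inner_zero_right]
    have : ∀ k, (inner ℝ (jg W (0, t₀) k) (jg W (0, t₀) k) : ℝ) = 4 * p k ^ 2 / ‖w‖ ^ 2 := by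
      intro k
      rw [Wk k, hp' k, inner_smul_left, inner_smul_right, real_inner_self_eq_norm_sq]
      simp only [conj_trivial]
      field_simp
      ring
    simp only [this]
    rw [← Finset.sum_div, ← Finset.mul_sum]
    ring
  have φk : ∀ k, jg φ (0, t₀) k = -2 * P * p k - 2 * ∑ j, K k j * p j := by
    intro k
    rw [hφ, ((hJA n ℝ (0, t₀)).2.2.2.1 φ₀ 2 cφ₀).1 k, hφ₀,
      ((hJB n N (0, t₀)).2 W m cW2 cm2).1 k, Wk k, W0, m0, hp' k, hwm k,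
      inner_smul_left, hwν]
    simp only [conj_trivial, smul_eq_mul]
    field_simp
    ring
  have φh : jh φ (0, t₀)
      = a * P * ‖w‖ ^ 2 + b * ‖w‖ ^ 2 - 8 / ‖w‖ ^ 2 * ∑ k, p k * ∑ j, K k j * p j := by
    rw [hφ, ((hJA n ℝ (0, t₀)).2.2.2.1 φ₀ 2 cφ₀).2, hφ₀,
      ((hJB n N (0, t₀)).2 W m cW2 cm2).2, Wh, inner_zero_left, W0, hmh, inner_sub_right,
      real_inner_smul_right, real_inner_smul_right, hwν, hwx]
    have : ∀ k, (inner ℝ (jg W (0, t₀) k) (jg m (0, t₀) k) : ℝ)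
        = 2 / ‖w‖ ^ 2 * (p k * ∑ j, K k j * p j) := by
      intro k
      rw [Wk k, hp' k, inner_smul_left, hwm k]
      simp only [conj_trivial]
      ring
    simp only [this, smul_eq_mul]
    rw [← Finset.mul_sum]
    ring
  refine ⟨hPe, ?_, ?_⟩
  · intro k
    rw [hβ', ((hJD n (0, t₀)).2 φ ψ cφ cψ ψne).1 k, φk k, ψk k, φ0, ψ0, hwν]
    field_simp
    ring
  · rw [hβ', ((hJD n (0, t₀)).2 φ ψ cφ cψ ψne).2, φh, ψh, φ0, ψ0, hwν]
    simp only [φk, ψk]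
    have e1 : ∑ k, (-2 * P * p k - 2 * ∑ j, K k j * p j) * (-4 * p k)
        = 8 * P * (∑ k, p k ^ 2) + 8 * ∑ k, p k * ∑ j, K k j * p j := by
      rw [Finset.mul_sum, Finset.mul_sum, ← Finset.sum_add_distrib]
      exact Finset.sum_congr rfl fun k _ => by ring
    have e2 : ∑ k, (-4 * p k) ^ 2 = 16 * ∑ k, p k ^ 2 := by
      rw [Finset.mul_sum]
      exact Finset.sum_congr rfl fun k _ => by ring
    have e3 : ∑ k, p k * (P * p k - ∑ j, K k j * p j)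
        = P * (∑ k, p k ^ 2) - ∑ k, p k * ∑ j, K k j * p j := by
      rw [Finset.mul_sum, ← Finset.sum_sub_distrib]
      exact Finset.sum_congr rfl fun k _ => by ring
    rw [e1, e2, e3]
    have hd : ‖w‖ ≠ 0 := norm_ne_zero_iff.2 hw0
    field_simp
    ring

end Helper19.HSF
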