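import Mathlib
import Pool.Agent.Helper35.HSF.StD

/-!
Project HSF, module IFT of helper35: infinite time, decay of all curvatures
-/

set_option autoImplicit false

namespace Helper19.HSF

open Helper35.HSF Helper35.MS Helper35.PI Helper35.PI2 Helper32.CL
open scoped ContDiff Manifold Topology ENNReal BigOperators
open MeasureTheory Set Filter

/-- the set of chord and normal curvatures at one point is compact -/
private lemma ift_compact (hCPZ : StCPZ) {n : ℕ} {M : Type} [TopologicalSpace M] [T2Space M]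
    [CompactSpace M] [ChartedSpace (EE n) M] [IsManifold (𝓡 n) ((⊤ : ℕ∞) : WithTop ℕ∞) M]
    {J : Set ℝ} {F ν : M → ℝ → EE (n + 2)} (h : HFl n J F ν) {t : ℝ} (ht : t ∈ J)
    (hi : Function.Injective (fun q => F q t)) (x : M) : IsCompact (ZS n F ν x t) := by
  have h1 := hCPZ n M J F ν h t t (by rw [Icc_self]; exact singleton_subset_iff.2 ht)
    (by intro s hs; rw [Icc_self, mem_singleton_iff] at hs; rw [hs]; exact hi)
  have h2 : IsClosed {p : (M × ℝ) × ℝ | p.1.1 = x} :=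
    isClosed_eq (continuous_fst.comp continuous_fst) continuous_const
  have h3 := (h1.inter_right h2).image continuous_snd
  have h4 : ZS n F ν x t = Prod.snd '' ({p : (M × ℝ) × ℝ | p.1.2 ∈ Icc t t ∧
      p.2 ∈ ZS n F ν p.1.1 p.1.2} ∩ {p : (M × ℝ) × ℝ | p.1.1 = x}) := by
    ext z
    constructor
    · intro hz
      exact ⟨((x, t), z), ⟨⟨⟨le_refl t, le_refl t⟩, hz⟩, rfl⟩, rfl⟩
    · rintro ⟨⟨⟨x', t'⟩, z'⟩, ⟨⟨h4, h5⟩, h6⟩, h7⟩
      have e1 : x' = x := h6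
      have e2 : t' = t := le_antisymm h4.2 h4.1
      have e3 : z' = z := h7
      have h8 : z' ∈ ZS n F ν x' t' := h5
      rw [e1, e2, e3] at h8
      exact h8
  rw [h4]
  exact h3

/-- real algebra of the improved bound -/
private lemma ift_alg (k r P Q H h₂ ε η K₀ g : ℝ) (n : ℝ) (hr : 0 < r) (hη : 0 < η)
    (hK : 0 < K₀) (hn : 1 ≤ n) (hP : 0 ≤ P) (hQ : Q ≤ 0) (hP2 : r * P ^ 2 ≤ K₀)
    (hQ2 : r * Q ^ 2 ≤ K₀) (hPQ : (2 - k) * (r * (-(P * Q))) ≤ k) (hk : k < 1)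
    (hh : h₂ ≤ (P + Q) * H - n * (P * Q)) (he : r * H ^ 2 ≤ ε) (h1 : η * K₀ = g / 2)
    (h2 : ε = η * g) (hg : 0 ≤ g) : r * h₂ ≤ n * (k / (2 - k) + g) := by
  have hk2 : 0 < 2 - k := by linarith
  have a1 : r * (-(P * Q)) ≤ k / (2 - k) := by
    rw [le_div_iff₀ hk2]
    linarith
  have a2 : r * h₂ ≤ r * ((P + Q) * H - n * (P * Q)) := mul_le_mul_of_nonneg_left hh hr.le
  have a3 : n * (r * (-(P * Q))) ≤ n * (k / (2 - k)) :=
    mul_le_mul_of_nonneg_left a1 (by linarith)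
  have a4 : 2 * η * ((P + Q) * H) ≤ η ^ 2 * (P + Q) ^ 2 + H ^ 2 := by
    nlinarith [sq_nonneg (η * (P + Q) - H)]
  have a5 : (P + Q) ^ 2 ≤ P ^ 2 + Q ^ 2 := by nlinarith [mul_nonneg hP (neg_nonneg.2 hQ)]
  have a6 : r * (P + Q) ^ 2 ≤ 2 * K₀ := by
    have := mul_le_mul_of_nonneg_left a5 hr.le
    linarith
  have a7 : 2 * η * (r * ((P + Q) * H)) ≤ η ^ 2 * (2 * K₀) + ε := by
    have b1 := mul_le_mul_of_nonneg_left a4 hr.le
    have b2 := mul_le_mul_of_nonneg_left a6 (sq_nonneg η)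
    nlinarith [b1, b2]
  have a8 : η ^ 2 * (2 * K₀) + ε = 2 * η * g := by
    have : η ^ 2 * (2 * K₀) = 2 * η * (η * K₀) := by ring
    rw [this, h1, h2]
    ring
  have a9 : r * ((P + Q) * H) ≤ g := by
    rw [a8] at a7
    have : 0 < 2 * η := by linarith
    exact le_of_mul_le_mul_left a7 this
  have a10 : g ≤ n * g := by nlinarith
  calc r * h₂ ≤ r * ((P + Q) * H) + n * (r * (-(P * Q))) := by linarith
    _ ≤ g + n * (k / (2 - k)) := by linarith
    _ ≤ n * (k / (2 - k) + g) := by linarith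

/-- IFT: decay of all curvatures in infinite time -/
theorem hIFT (hZRO : StZRO) (hPBD : StPBD) (hHZR : StHZR) (hDEC : StDEC) (hSLB : StSLB)
    (hCPZ : StCPZ) (hHNB : StHNB) (hEVF : StEVF) : StIFT := by
  intro n h1n M _ _ _ _ _ _ T F ν hF hT k t₁ hk0 hk1 ht₁ hpin
  have hn' : (1 : ℝ) ≤ n := by exact_mod_cast h1n
  have hn0 : (0 : ℝ) < n := by linarith
  have hJ : ∀ t ∈ Ico t₁ T, t ∈ Ioo 0 T := fun t ht => ⟨ht₁.1.trans_le ht.1, ht.2⟩
  have hrr : ∀ t ∈ Ico t₁ T, 0 < rr n t := fun t ht => hF.r0 t (hJ t ht)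
  set K₀ : ℝ := k / (1 - k) with hK₀
  have h1k : 0 < 1 - k := by linarith
  have hK0 : 0 < K₀ := div_pos hk0 h1k
  -- step 1: both signs, the basic bound
  have hz : ∀ t ∈ Ico t₁ T, ∀ x, (∃ z ∈ ZS n F ν x t, z ≤ 0) ∧ ∃ z ∈ ZS n F ν x t, 0 ≤ z :=
    fun t ht x => hZRO n h1n M T F ν hF hT t (hJ t ht) (hpin t ht).1 x
  have hb : ∀ t ∈ Ico t₁ T, ∀ x, (∀ z ∈ ZS n F ν x t, (1 - k) * (rr n t * z ^ 2) ≤ k) ∧
      ∀ z₁ ∈ ZS n F ν x t, ∀ z₂ ∈ ZS n F ν x t, 0 ≤ z₁ → z₂ ≤ 0 →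
        (2 - k) * (rr n t * (-(z₁ * z₂))) ≤ k :=
    fun t ht x => hPBD n M k t F ν (hrr t ht) hk0 hk1 (hpin t ht).2 x (hz t ht x).1 (hz t ht x).2
  have hb1 : ∀ t ∈ Ico t₁ T, ∀ x, ∀ z ∈ ZS n F ν x t, rr n t * z ^ 2 ≤ K₀ := by
    intro t ht x z hzz
    rw [hK₀, le_div_iff₀ h1k]
    linarith [(hb t ht x).1 z hzz]
  have hΛ : ∀ t ∈ Ico t₁ T, ∀ q, rr n t * h2N n F q t ≤ n * K₀ := by
    intro t ht q
    have hr := hrr t ht
    have h1 := (hHNB n h1n M (Ioo 0 T) F ν hF q t (hJ t ht)).2.2.2.2.2.2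
      (Real.sqrt (K₀ / rr n t)) (by
        intro c hc
        apply Real.abs_le_sqrt
        rw [le_div_iff₀ hr]
        have := hb1 t ht q (hn F ν q t c) (Or.inr ⟨c, hc, rfl⟩)
        linarith)
    rw [Real.sq_sqrt (div_nonneg hK0.le hr.le)] at h1
    have h2 := mul_le_mul_of_nonneg_left h1 hr.le
    have h3 : rr n t * (n * (K₀ / rr n t)) = n * K₀ := by
      field_simp
    linarith
  -- step 2: the constants
  set g : ℝ := (1 - k) / (2 - k) with hg
  have h2k : 0 < 2 - k := by linarith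
  have hg0 : 0 < g := div_pos h1k h2k
  set η : ℝ := g / (2 * K₀) with hη
  have hη0 : 0 < η := div_pos hg0 (by linarith)
  have hηK : η * K₀ = g / 2 := by
    rw [hη]
    field_simp
  set l : ℝ := k / (2 - k) + g with hl
  have hl1 : l = 1 / (2 - k) := by
    rw [hl, hg, ← add_div]
    congr 1
    ring
  have hl0 : 0 < l := by rw [hl1]; exact div_pos one_pos h2k
  have hl2 : l < 1 := by
    rw [hl1, div_lt_one h2k]
    linarith
  set l' : ℝ := (1 + l) / 2 with hl'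
  have hl'1 : l < l' := by rw [hl']; linarith
  have hl'2 : l' < 1 := by rw [hl']; linarith
  have hl'0 : 0 < l' := by linarith
  -- step 3: the mean curvature is small near T
  obtain ⟨t₂, ht₂, hε⟩ := hHZR n h1n M T F ν hF hT t₁ (n * K₀) ht₁ hΛ (η * g) (mul_pos hη0 hg0)
  have ht₂' : t₂ ∈ Ioo 0 T := hJ t₂ ht₂
  have hsub : ∀ t ∈ Ico t₂ T, t ∈ Ico t₁ T := fun t ht => ⟨ht₂.1.trans ht.1, ht.2⟩
  have hkey : ∀ t ∈ Ico t₂ T, ∀ q, rr n t * h2N n F q t ≤ n * l := by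
    intro t ht q
    have ht' := hsub t ht
    have hr := hrr t ht'
    have hc := ift_compact hCPZ hF (hJ t ht') (hpin t ht').1 q
    have hne : (ZS n F ν q t).Nonempty := by
      obtain ⟨z, h1, -⟩ := (hz t ht' q).1
      exact ⟨z, h1⟩
    obtain ⟨P, hP, hPm⟩ := hc.exists_isGreatest hne
    obtain ⟨Q, hQ, hQm⟩ := hc.exists_isLeast hne
    have hP0 : 0 ≤ P := by
      obtain ⟨z, h1, h2⟩ := (hz t ht' q).2
      exact h2.trans (hPm h1)
    have hQ0 : Q ≤ 0 := by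
      obtain ⟨z, h1, h2⟩ := (hz t ht' q).1
      exact (hQm h1).trans h2
    rcases lt_or_ge Q P with hlt | hge
    · have h1 := (hSLB n M (Ioo 0 T) F ν hF q t (hJ t ht') P hP Q hQ hlt
        (fun z hzz => ⟨hQm hzz, hPm hzz⟩)).1
      have h2 : rr n t * Hs n F ν q t ^ 2 ≤ η * g := by
        have := hε t ht q
        rwa [((hEVF n h1n M (Ioo 0 T) F ν hF).2.2 q t (hJ t ht')).2.1] at this
      exact ift_alg k (rr n t) P Q (Hs n F ν q t) (h2N n F q t) (η * g) η K₀ g n hr hη0 hK0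
        hn' hP0 hQ0 (hb1 t ht' q P hP) (hb1 t ht' q Q hQ)
        ((hb t ht' q).2 P hP Q hQ hP0 hQ0) hk1 h1 h2 hηK rfl hg0.le
    · have hPz : P = 0 := le_antisymm (hge.trans hQ0) hP0
      have hQz : Q = 0 := le_antisymm hQ0 (by rw [← hPz]; exact hge)
      have h1 := (hHNB n h1n M (Ioo 0 T) F ν hF q t (hJ t ht')).2.2.2.2.2.2 0 (by
        intro c hc
        have hm : hn F ν q t c ∈ ZS n F ν q t := Or.inr ⟨c, hc, rfl⟩
        have b1 := hPm hm
        have b2 := hQm hm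
        rw [hPz] at b1
        rw [hQz] at b2
        rw [abs_le]
        constructor <;> linarith)
      have h2 : rr n t * h2N n F q t ≤ 0 := by
        have := mul_le_mul_of_nonneg_left h1 hr.le
        simpa using this
      exact h2.trans (mul_pos hn0 hl0).le
  -- step 4: decay near T
  obtain ⟨C₁, hC₁, hd⟩ := hDEC n h1n M T F ν hF t₂ l l' ht₂' hl'0 hl'1
    (fun t ht => (hpin t (hsub t ht)).1) hkey
  have hr2 : 0 < rr n t₂ := hrr t₂ ht₂
  set α : ℝ := (1 - l') / 2 with hα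
  have hα0 : 0 < α := by rw [hα]; linarith
  have hα1 : α < 1 / 2 := by rw [hα]; linarith
  have hexp : α - 1 / 2 = -(l' / 2) := by rw [hα]; ring
  refine ⟨C₁ + Real.sqrt K₀ * rr n t₂ ^ (-α), α, ?_, hα0, hα1, ?_⟩
  · exact add_pos hC₁ (mul_pos (Real.sqrt_pos.2 hK0) (Real.rpow_pos_of_pos hr2 _))
  · intro t ht x z hzz
    have hr := hrr t ht
    have hpos : 0 < rr n t ^ (α - 1 / 2) := Real.rpow_pos_of_pos hr _
    have hB : 0 < Real.sqrt K₀ * rr n t₂ ^ (-α) :=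
      mul_pos (Real.sqrt_pos.2 hK0) (Real.rpow_pos_of_pos hr2 _)
    rcases le_or_gt t₂ t with hle | hlt
    · have h1 : |z| ≤ C₁ * rr n t ^ (α - 1 / 2) := by
        rw [hexp, abs_le]
        obtain ⟨zm, hm1, hm2⟩ := (hz t ht x).1
        obtain ⟨zp, hp1, hp2⟩ := (hz t ht x).2
        have b1 := hd t ⟨hle, ht.2⟩ x z hzz zm hm1
        have b2 := hd t ⟨hle, ht.2⟩ x zp hp1 z hzz
        constructor <;> linarith
      rw [add_mul]
      have h2 := mul_pos hB hpos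
      linarith
    · have h1 : |z| ≤ Real.sqrt K₀ * rr n t ^ (-(1 / 2) : ℝ) := by
        have b1 : z ^ 2 ≤ K₀ / rr n t := by
          rw [le_div_iff₀ hr]
          linarith [hb1 t ht x z hzz]
        have b2 := Real.abs_le_sqrt b1
        rw [Real.sqrt_div hK0.le, Real.sqrt_eq_rpow (rr n t)] at b2
        rw [Real.rpow_neg hr.le, ← div_eq_mul_inv]
        exact b2
      have h2 : rr n t ^ (-(1 / 2) : ℝ) = rr n t ^ (-α) * rr n t ^ (α - 1 / 2) := by
        rw [← Real.rpow_add hr]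
        congr 1
        ring
      have h3 : rr n t₂ ≤ rr n t := by
        unfold rr
        nlinarith
      have h4 : rr n t ^ (-α) ≤ rr n t₂ ^ (-α) :=
        Real.rpow_le_rpow_of_nonpos hr2 h3 (by linarith)
      have h5 : Real.sqrt K₀ * rr n t ^ (-(1 / 2) : ℝ)
          ≤ Real.sqrt K₀ * rr n t₂ ^ (-α) * rr n t ^ (α - 1 / 2) := by
        rw [h2, ← mul_assoc]
        exact mul_le_mul_of_nonneg_right
          (mul_le_mul_of_nonneg_left h4 (Real.sqrt_nonneg _)) hpos.le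
      rw [add_mul]
      have h6 := mul_pos hC₁ hpos
      linarith

end Helper19.HSF
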